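import Pool.Agent.MBX.Stmts

/-!
# MBX (MP_8cfbae_mp), row OSC (helper39)
-/

set_option autoImplicit false

open MeasureTheory Complex ProbabilityTheory

namespace Pool.Agent.MBX.H39

open Pool.Agent.Helper49_Pauli
open Pool.Agent.MBX

/-- optimisation of the parameter of the inequality of the means -/
theorem opt {X A B w : ℝ} (hA : 0 ≤ A) (hB : 0 ≤ B) (hw : 0 ≤ w) (hAB : A * B ≤ w ^ 2)
    (h : ∀ lam : ℝ, 0 < lam → X ≤ lam * A + B / lam) : X ≤ 2 * w := by
  by_contra hc
  push Not at hc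
  have hX : 0 < X := by linarith
  rcases hA.eq_or_lt with h0 | h0
  · have h1 := h ((B + 1) / X) (by positivity)
    rw [← h0, mul_zero, zero_add] at h1
    have h2 : B / ((B + 1) / X) = B * X / (B + 1) := by
      field_simp
    rw [h2, le_div_iff₀ (by positivity)] at h1
    nlinarith
  · have h1 := h (X / (2 * A)) (by positivity)
    have h2 : X / (2 * A) * A = X / 2 := by field_simp
    have h3 : B / (X / (2 * A)) = 2 * (A * B) / X := by field_simp
    rw [h2, h3] at h1
    have h4 : X / 2 ≤ 2 * (A * B) / X := by linarith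
    rw [le_div_iff₀ hX] at h4
    nlinarith

/-- the derivative of the phase -/
theorem sinDeriv (q : X3) (tau : ℝ) (x : X3) :
    HasFDerivAt (fun z : X3 => Real.sin (dot q z - tau))
      (Real.cos (dot q x - tau) • ∑ j, q j • ContinuousLinearMap.proj (R := ℝ) (φ := fun _ => ℝ) j)
      x := by
  have h1 : HasFDerivAt (fun z : X3 => dot q z - tau)
      (∑ j, q j • ContinuousLinearMap.proj (R := ℝ) (φ := fun _ : Fin 3 => ℝ) j) x := by
    unfold dot
    apply HasFDerivAt.sub_const
    apply HasFDerivAt.fun_sum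
    intro j _
    exact (ContinuousLinearMap.proj (R := ℝ) (φ := fun _ : Fin 3 => ℝ) j).hasFDerivAt.const_mul
      (q j)
  exact h1.sin

theorem contDot (q : X3) (tau : ℝ) : Continuous fun z : X3 => dot q z - tau := by
  unfold dot
  fun_prop

theorem osc (hXib : XibStmt) : OscStmt := by
  intro V hV f hf q tau w hq hw hAB
  have hcv : ∀ j, CS (cv V j f) := fun j => (hXib V hV f f hf hf j).1
  obtain ⟨r, hr⟩ : ∃ r : ℝ, r = Real.sqrt (Helper49_Pauli.sq q) := ⟨_, rfl⟩
  have hr0 : 0 < r := by rw [hr]; exact Real.sqrt_pos.mpr hq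
  have hr2 : r ^ 2 = Helper49_Pauli.sq q := by rw [hr]; exact Real.sq_sqrt hq.le
  obtain ⟨e, he⟩ : ∃ e : Fin 3 → X3, ∀ j, e j = Pi.single j 1 := ⟨fun j => Pi.single j 1, fun _ => rfl⟩
  -- the function `g`
  obtain ⟨g, hg⟩ : ∃ g : X3 → ℝ, g = fun x => ‖f x‖ ^ 2 := ⟨_, rfl⟩
  have hgx : ∀ x, g x = ‖f x‖ ^ 2 := fun x => by rw [hg]
  have hgs : ContDiff ℝ (⊤ : ℕ∞) g := by rw [hg]; exact hf.1.norm_sq ℝ
  have hgc : HasCompactSupport g := by
    rw [hg]; exact hf.2.comp_left (g := fun z : ℂ => ‖z‖ ^ 2) (by simp)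
  have hgd : ∀ x j, fderiv ℝ g x (e j) =
      2 * ((starRingEnd ℂ) (f x) * (I * cv V j f x)).re := by
    intro x j
    have h1 : HasFDerivAt f (fderiv ℝ f x) x :=
      (hf.1.differentiable (by simp) x).hasFDerivAt
    have h2 := h1.norm_sq
    have h3 : fderiv ℝ g x = 2 • (innerSL ℝ (f x)).comp (fderiv ℝ f x) := by
      rw [hg]; exact h2.fderiv
    rw [h3]
    simp only [ContinuousLinearMap.smul_apply, ContinuousLinearMap.comp_apply,
      innerSL_apply_apply, nsmul_eq_mul, Nat.cast_ofNat, Complex.inner]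
    have h4 : I * cv V j f x = fderiv ℝ f x (e j) + I * (V x j : ℂ) * f x := by
      unfold cv
      rw [← he]
      linear_combination (-(fderiv ℝ f x (e j))) * Complex.I_mul_I
    rw [h4, mul_add, Complex.add_re]
    have h5 : ((starRingEnd ℂ) (f x) * (I * (V x j : ℂ) * f x)).re = 0 := by
      have : (starRingEnd ℂ) (f x) * (I * (V x j : ℂ) * f x) =
          I * ((V x j : ℂ) * ((starRingEnd ℂ) (f x) * f x)) := by ring
      rw [this, ← Complex.normSq_eq_conj_mul_self, ← Complex.ofReal_mul]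
      simp
    rw [h5, add_zero, mul_comm ((fderiv ℝ f x) (e j)) ((starRingEnd ℂ) (f x))]
  have hgd' : ∀ j, Continuous fun x => fderiv ℝ g x (e j) := fun j =>
    ((hgs.fderiv_right (m := (⊤ : ℕ∞)) (by simp)).clm_apply contDiff_const).continuous
  have hgdc : ∀ j, HasCompactSupport fun x => fderiv ℝ g x (e j) := fun j =>
    (hgc.fderiv (𝕜 := ℝ)).comp_left (g := fun L : X3 →L[ℝ] ℝ => L (e j)) rfl
  -- integration by parts
  have hsin : Continuous fun z : X3 => Real.sin (dot q z - tau) :=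
    Real.continuous_sin.comp (contDot q tau)
  have hcos : Continuous fun z : X3 => Real.cos (dot q z - tau) :=
    Real.continuous_cos.comp (contDot q tau)
  have hsd : ∀ x j, fderiv ℝ (fun z : X3 => Real.sin (dot q z - tau)) x (e j) =
      Real.cos (dot q x - tau) * q j := by
    intro x j
    rw [(sinDeriv q tau x).fderiv, he]
    simp [Pi.single_apply]
  have hI1 : ∀ j, Integrable (fun x => Real.sin (dot q x - tau) * fderiv ℝ g x (e j)) := fun j =>
    (hsin.mul (hgd' j)).integrable_of_hasCompactSupport (hgdc j).mul_left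
  have hI2 : Integrable (fun x => Real.cos (dot q x - tau) * g x) :=
    (hcos.mul hgs.continuous).integrable_of_hasCompactSupport hgc.mul_left
  have hparts : ∀ j, ∫ x, Real.sin (dot q x - tau) * fderiv ℝ g x (e j) =
      -(q j * ∫ x, Real.cos (dot q x - tau) * g x) := by
    intro j
    have h := integral_mul_fderiv_eq_neg_fderiv_mul_of_integrable
      (μ := (volume : Measure X3)) (f := fun z : X3 => Real.sin (dot q z - tau)) (g := g)
      (v := e j) ?_ (hI1 j) ?_ (fun x _ => (sinDeriv q tau x).differentiableAt)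
      (fun x _ => hgs.differentiable (by simp) x)
    · rw [h, ← integral_const_mul]
      congr 1
      apply integral_congr_ae
      filter_upwards with x
      rw [hsd]
      ring
    · have : (fun x => fderiv ℝ (fun z : X3 => Real.sin (dot q z - tau)) x (e j) * g x) =
          fun x => q j * (Real.cos (dot q x - tau) * g x) := by
        funext x
        rw [hsd]
        ring
      rw [this]
      exact hI2.const_mul _
    · exact (hsin.mul hgs.continuous).integrable_of_hasCompactSupport hgc.mul_left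
  have hsum : r ^ 2 * ∫ x, Real.cos (dot q x - tau) * g x =
      -∫ x, ∑ j, q j * (Real.sin (dot q x - tau) * fderiv ℝ g x (e j)) := by
    rw [integral_finsetSum _ fun j _ => (hI1 j).const_mul (q j)]
    rw [hr2]
    unfold Helper49_Pauli.sq
    rw [Finset.sum_mul, ← Finset.sum_neg_distrib]
    refine Finset.sum_congr rfl fun j _ => ?_
    rw [integral_const_mul, hparts]
    ring
  -- the two integrals
  have hAI : Integrable (fun x => ‖f x‖ ^ 2) := by
    have := hgs.continuous.integrable_of_hasCompactSupport hgc (μ := (volume : Measure X3))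
    rwa [hg] at this
  have hBI : Integrable (fun x => ∑ j, ‖cv V j f x‖ ^ 2) := by
    apply integrable_finsetSum
    intro j _
    have h1 : Continuous fun x => ‖cv V j f x‖ ^ 2 := (hcv j).1.continuous.norm.pow 2
    have h2 : HasCompactSupport fun x => ‖cv V j f x‖ ^ 2 :=
      (hcv j).2.comp_left (g := fun z : ℂ => ‖z‖ ^ 2) (by simp)
    exact h1.integrable_of_hasCompactSupport h2
  have hA : 0 ≤ ∫ x, ‖f x‖ ^ 2 := integral_nonneg fun x => by positivity
  have hB : 0 ≤ ∫ x, ∑ j, ‖cv V j f x‖ ^ 2 :=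
    integral_nonneg fun x => Finset.sum_nonneg fun j _ => by positivity
  have hgI : (fun x => Real.cos (dot q x - tau) * ‖f x‖ ^ 2) =
      fun x => Real.cos (dot q x - tau) * g x := by
    funext x
    rw [hgx]
  rw [hgI, ← hr, le_div_iff₀ hr0]
  rw [mul_comm]
  apply opt hA hB hw hAB
  intro lam hlam
  -- the pointwise bound
  have hpt : ∀ x, |∑ j, q j * (Real.sin (dot q x - tau) * fderiv ℝ g x (e j))| ≤
      r * (lam * ‖f x‖ ^ 2 + (∑ j, ‖cv V j f x‖ ^ 2) / lam) := by
    intro x
    have h1 : ∀ j, |q j * (Real.sin (dot q x - tau) * fderiv ℝ g x (e j))| ≤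
        lam / r * q j ^ 2 * ‖f x‖ ^ 2 + r / lam * ‖cv V j f x‖ ^ 2 := by
      intro j
      have h2 : |((starRingEnd ℂ) (f x) * (I * cv V j f x)).re| ≤ ‖f x‖ * ‖cv V j f x‖ := by
        refine (Complex.abs_re_le_norm _).trans (le_of_eq ?_)
        rw [norm_mul, norm_mul, Complex.norm_I, one_mul, RCLike.norm_conj]
      have h3 : |q j * (Real.sin (dot q x - tau) * fderiv ℝ g x (e j))| ≤
          |q j| * (1 * (2 * (‖f x‖ * ‖cv V j f x‖))) := by
        rw [abs_mul, abs_mul, hgd, abs_mul, abs_two]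
        gcongr
        exact Real.abs_sin_le_one _
      refine h3.trans ?_
      have h4 : 0 < lam / r := by positivity
      have h5 : r / lam = (lam / r)⁻¹ := by rw [inv_div]
      rw [h5]
      obtain ⟨m, hm⟩ : ∃ m : ℝ, m = lam / r := ⟨_, rfl⟩
      rw [← hm] at h4 ⊢
      have h6 : 0 ≤ m⁻¹ * (m * (|q j| * ‖f x‖) - ‖cv V j f x‖) ^ 2 := by positivity
      have h7 : m⁻¹ * (m * (|q j| * ‖f x‖) - ‖cv V j f x‖) ^ 2 =
          m * |q j| ^ 2 * ‖f x‖ ^ 2 + m⁻¹ * ‖cv V j f x‖ ^ 2 -
            |q j| * (1 * (2 * (‖f x‖ * ‖cv V j f x‖))) := by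
        field_simp
        ring
      rw [h7, sq_abs] at h6
      linarith
    calc |∑ j, q j * (Real.sin (dot q x - tau) * fderiv ℝ g x (e j))|
        ≤ ∑ j, |q j * (Real.sin (dot q x - tau) * fderiv ℝ g x (e j))| :=
          Finset.abs_sum_le_sum_abs _ _
      _ ≤ ∑ j, (lam / r * q j ^ 2 * ‖f x‖ ^ 2 + r / lam * ‖cv V j f x‖ ^ 2) :=
          Finset.sum_le_sum fun j _ => h1 j
      _ = lam / r * Helper49_Pauli.sq q * ‖f x‖ ^ 2 + r / lam * ∑ j, ‖cv V j f x‖ ^ 2 := by
          rw [Finset.sum_add_distrib, ← Finset.mul_sum, ← Finset.sum_mul, ← Finset.mul_sum]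
          rfl
      _ = r * (lam * ‖f x‖ ^ 2 + (∑ j, ‖cv V j f x‖ ^ 2) / lam) := by
          rw [← hr2]
          field_simp
  have h8 : r ^ 2 * |∫ x, Real.cos (dot q x - tau) * g x| ≤
      r * (lam * (∫ x, ‖f x‖ ^ 2) + (∫ x, ∑ j, ‖cv V j f x‖ ^ 2) / lam) := by
    have h9 : r ^ 2 * |∫ x, Real.cos (dot q x - tau) * g x| =
        |∫ x, ∑ j, q j * (Real.sin (dot q x - tau) * fderiv ℝ g x (e j))| := by
      rw [← abs_neg (∫ x, ∑ j, q j * (Real.sin (dot q x - tau) * fderiv ℝ g x (e j))), ← hsum,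
        abs_mul, abs_of_pos (by positivity : (0 : ℝ) < r ^ 2)]
    rw [h9]
    refine (abs_integral_le_integral_abs).trans ?_
    have h10 : ∫ x, r * (lam * ‖f x‖ ^ 2 + (∑ j, ‖cv V j f x‖ ^ 2) / lam) =
        r * (lam * (∫ x, ‖f x‖ ^ 2) + (∫ x, ∑ j, ‖cv V j f x‖ ^ 2) / lam) := by
      rw [integral_const_mul, integral_add (hAI.const_mul lam) (hBI.div_const lam),
        integral_const_mul, integral_div]
    rw [← h10]
    apply integral_mono
    · exact (integrable_finsetSum _ fun j _ => (hI1 j).const_mul (q j)).abs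
    · exact ((hAI.const_mul lam).add (hBI.div_const lam)).const_mul r
    · exact hpt
  have h11 : r * (r * |∫ x, Real.cos (dot q x - tau) * g x|) ≤
      r * (lam * (∫ x, ‖f x‖ ^ 2) + (∫ x, ∑ j, ‖cv V j f x‖ ^ 2) / lam) := by
    calc r * (r * |∫ x, Real.cos (dot q x - tau) * g x|)
        = r ^ 2 * |∫ x, Real.cos (dot q x - tau) * g x| := by ring
      _ ≤ _ := h8
  exact le_of_mul_le_mul_left h11 hr0

end Pool.Agent.MBX.H39
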